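import Pool.Agent.Helper97.Tate.Goals

/-!
# Packet TATE-BAS (MP_d3128a_ag): the standard theta functions are a basis
-/

set_option autoImplicit false

namespace Pool.Agent.Helper1.Tate.BAS

open Pool.Agent.Helper97.Tate

variable {k : Type} [Field k]

theorem coeff_add' (f g : LaurentPolynomial k) (n : ℤ) :
    (f + g).coeff n = f.coeff n + g.coeff n := by
  simp

theorem coeff_sum' {ι : Type} (s : Finset ι) (f : ι → LaurentPolynomial k) (n : ℤ) :
    (∑ i ∈ s, f i).coeff n = ∑ i ∈ s, (f i).coeff n := by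
  classical
  induction s using Finset.induction_on with
  | empty => simp
  | insert a s ha ih => rw [Finset.sum_insert ha, Finset.sum_insert ha, coeff_add', ih]

theorem coeff_C_mul' (a : k) (f : LaurentPolynomial k) (n : ℤ) :
    (LaurentPolynomial.C a * f).coeff n = a * f.coeff n := by
  rw [← LaurentPolynomial.smul_eq_C_mul]
  simp

theorem coeff_ser (f : SS k) (n : ℤ) (N : ℕ) :
    PowerSeries.coeff N (ser f n) = (PowerSeries.coeff N f).coeff n := by
  simp [ser, cf]

theorem ser_add (f g : SS k) (n : ℤ) : ser (f + g) n = ser f n + ser g n := by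
  ext N
  rw [map_add, coeff_ser, coeff_ser, coeff_ser, map_add, coeff_add']

theorem ser_zero (n : ℤ) : ser (0 : SS k) n = 0 := by
  ext N
  rw [coeff_ser]
  simp

theorem ser_neg (f : SS k) (n : ℤ) : ser (-f) n = - ser f n := by
  have h := ser_add f (-f) n
  rw [add_neg_cancel, ser_zero] at h
  exact (neg_eq_of_add_eq_zero_right h.symm).symm

theorem ser_sum {ι : Type} (s : Finset ι) (f : ι → SS k) (n : ℤ) :
    ser (∑ i ∈ s, f i) n = ∑ i ∈ s, ser (f i) n := by
  classical
  induction s using Finset.induction_on with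
  | empty => rw [Finset.sum_empty, Finset.sum_empty, ser_zero]
  | insert a s ha ih => rw [Finset.sum_insert ha, Finset.sum_insert ha, ser_add, ih]

theorem ser_iO_mul (a : OO k) (f : SS k) (n : ℤ) : ser (iO a * f) n = a * ser f n := by
  ext N
  rw [coeff_ser, PowerSeries.coeff_mul, PowerSeries.coeff_mul, coeff_sum']
  apply Finset.sum_congr rfl
  intro p _
  rw [coeff_ser]
  have h : PowerSeries.coeff p.1 (iO a) = LaurentPolynomial.C (PowerSeries.coeff p.1 a) := by
    simp [iO]
  rw [h, coeff_C_mul']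

theorem eq_zero_of_ser (f : SS k) (h : ∀ n : ℤ, ser f n = 0) : f = 0 := by
  ext N n
  have h1 := congrArg (PowerSeries.coeff N) (h n)
  rw [coeff_ser] at h1
  simpa using h1

theorem cf_eq_zero_of_ser {f : SS k} {n : ℤ} (h : ser f n = 0) (N : ℤ) : cf f N n = 0 := by
  unfold cf
  split_ifs with hN
  · have h1 := congrArg (PowerSeries.coeff N.toNat) h
    rw [coeff_ser] at h1
    simpa using h1
  · rfl

theorem ser_eq_zero_of_cf {f : SS k} {n : ℤ} (h : ∀ N : ℤ, cf f N n = 0) : ser f n = 0 := by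
  ext N
  simpa [ser] using h N

theorem zero_of_period {κ : ℕ} {c : k} (hκ : 1 ≤ κ) (hc : c ≠ 0) {g : SS k} (hg : IsTh κ c g)
    (h : ∀ r : Fin κ, ser g ((r : ℕ) : ℤ) = 0) : g = 0 := by
  apply eq_zero_of_ser
  have step : ∀ n : ℤ, (∀ N : ℤ, cf g N n = 0) ↔ (∀ N : ℤ, cf g N (n + κ) = 0) := by
    intro n
    constructor
    · intro h1 N
      rw [hg N n, h1, mul_zero]
    · intro h1 N
      have h2 := hg (N + n) n
      rw [h1, add_sub_cancel_right] at h2
      rcases mul_eq_zero.1 h2.symm with h3 | h3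
      · exact absurd h3 hc
      · exact h3
  have all : ∀ (n : ℤ), (∀ N : ℤ, cf g N n = 0) → ∀ l : ℤ, ∀ N : ℤ, cf g N (n + κ * l) = 0 := by
    intro n hn l
    induction l using Int.induction_on with
    | zero => simpa using hn
    | succ i ih =>
      have e : n + κ * ((i : ℤ) + 1) = (n + κ * i) + κ := by ring
      rw [e]
      exact (step _).1 ih
    | pred i ih =>
      have e : n + κ * (-(i : ℤ)) = (n + κ * (-(i : ℤ) - 1)) + κ := by ring
      rw [e] at ih
      exact (step _).2 ih
  intro n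
  apply ser_eq_zero_of_cf
  have hκ0 : (0 : ℤ) < κ := by exact_mod_cast hκ
  have h1 : 0 ≤ n % κ := Int.emod_nonneg _ hκ0.ne'
  have h2 : n % κ < κ := Int.emod_lt_of_pos _ hκ0
  have h3 : ser g (n % κ) = 0 := by
    have := h ⟨(n % κ).toNat, by omega⟩
    have e : (((n % κ).toNat : ℕ) : ℤ) = n % κ := Int.toNat_of_nonneg h1
    simpa [e] using this
  have h4 := all (n % κ) (cf_eq_zero_of_ser h3) (n / κ)
  have e : n % κ + κ * (n / κ) = n := Int.emod_add_mul_ediv n κ
  rw [e] at h4
  exact h4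

theorem ser_Th (hT : S_THC) {κ : ℕ} {c : k} (hc : c ≠ 0) (r r' : Fin κ) :
    ser (Th κ ((r : ℕ) : ℤ) c) ((r' : ℕ) : ℤ) = if r = r' then 1 else 0 := by
  have h := (hT k κ ((r : ℕ) : ℤ) c hc (by positivity) (by exact_mod_cast r.2)).1
  ext N
  have h1 := h N ((r' : ℕ) : ℤ)
  have h2 : PowerSeries.coeff N (ser (Th κ ((r : ℕ) : ℤ) c) ((r' : ℕ) : ℤ)) =
      cf (Th κ ((r : ℕ) : ℤ) c) N ((r' : ℕ) : ℤ) := by simp [ser]
  rw [h2, h1]
  by_cases hrr : r = r'
  · subst hrr
    rw [if_pos rfl, sub_self, Int.zero_ediv]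
    have hq : qe κ ((r : ℕ) : ℤ) 0 = 0 := by simp [qe]
    rw [hq, PowerSeries.coeff_one]
    by_cases hN : N = 0
    · subst hN
      simp
    · rw [if_neg hN, if_neg]
      rintro ⟨_, h3⟩
      exact hN (by exact_mod_cast h3.symm)
  · rw [if_neg hrr, if_neg]
    · simp
    · rintro ⟨⟨t, ht⟩, _⟩
      apply hrr
      apply Fin.ext
      have hr := r.2
      have hr' := r'.2
      have hκ0 : (0 : ℤ) < κ := by exact_mod_cast (lt_of_le_of_lt (Nat.zero_le _) hr)
      have ht0 : t = 0 := by
        by_contra hne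
        rcases lt_or_gt_of_ne hne with h3 | h3
        · have : (κ : ℤ) * t ≤ κ * (-1) := by
            apply mul_le_mul_of_nonneg_left _ hκ0.le
            omega
          have : (κ : ℤ) * (-1) = -κ := by ring
          omega
        · have : (κ : ℤ) * 1 ≤ κ * t := by
            apply mul_le_mul_of_nonneg_left _ hκ0.le
            omega
          have : (κ : ℤ) * 1 = κ := by ring
          omega
      rw [ht0, mul_zero] at ht
      omega

theorem t (hL : S_LIN) (hT : S_THC) : S_BAS := by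
  intro k _ κ c hκ hc
  have second : ∀ (a : Fin κ → OO k) (r' : Fin κ),
      ser (∑ r : Fin κ, iO (a r) * Th κ ((r : ℕ) : ℤ) c) ((r' : ℕ) : ℤ) = a r' := by
    intro a r'
    rw [ser_sum]
    rw [Finset.sum_eq_single r']
    · rw [ser_iO_mul, ser_Th hT hc, if_pos rfl, mul_one]
    · intro b _ hb
      rw [ser_iO_mul, ser_Th hT hc, if_neg hb, mul_zero]
    · intro h
      exact absurd (Finset.mem_univ _) h
  refine ⟨?_, second⟩
  intro f hf
  obtain ⟨h0, hadd, hneg, hmul⟩ := hL k κ c
  have hsum : ∀ (s : Finset (Fin κ)) (a : Fin κ → OO k),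
      IsTh κ c (∑ r ∈ s, iO (a r) * Th κ ((r : ℕ) : ℤ) c) := by
    classical
    intro s a
    induction s using Finset.induction_on with
    | empty => rw [Finset.sum_empty]; exact h0
    | insert r s hr ih =>
      rw [Finset.sum_insert hr]
      exact hadd _ _ (hmul _ _ ((hT k κ ((r : ℕ) : ℤ) c hc (by positivity)
        (by exact_mod_cast r.2)).2.1)) ih
  set g : SS k := ∑ r : Fin κ, iO (ser f ((r : ℕ) : ℤ)) * Th κ ((r : ℕ) : ℤ) c with hg
  have h1 : IsTh κ c (f + -g) := hadd _ _ hf (hneg _ (hsum _ _))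
  have h2 : f + -g = 0 := by
    apply zero_of_period hκ hc h1
    intro r
    rw [ser_add, ser_neg, hg, second, add_neg_cancel]
  exact (neg_eq_of_add_eq_zero_left h2) ▸ by simp

end Pool.Agent.Helper1.Tate.BAS
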